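import Pool.Agent.X159.Variety2

/-!
# Zero total curvature of `η` on discrete varieties

Positive answer to Q1: for a `d`-variety `G`, `η(G) = 0` if and only if `χ(S(x)) = 0` for all
vertices `x` of the Barycentric refinement `G_1`. For even `d` all these curvatures vanish; for odd
`d` the sum is four times the number of odd-dimensional simplices, so it is zero only if `G` has no
edges.
-/

set_option autoImplicit false

namespace Pool.Agent.Results.MP_dbf4ef_co.EtaZero

open Pool.Agent.X159.Variety

/-- The set of all vertices of the Barycentric refinement. -/
noncomputable def verts {V : Type*} [Fintype V] (G : SimpleGraph V) : Finset (Simplex G) :=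
  @Finset.univ _ (Fintype.ofFinite _)

/-- The curvature `χ(S(x))` of a vertex `x` of the Barycentric refinement of `G`. -/
noncomputable def curv {V : Type*} [Fintype V] (G : SimpleGraph V) (x : Simplex G) : ℤ :=
  chi (bary G) (usph (bary G) (verts G) x)

/-- `η(G)`: the sum of the curvatures over all vertices of the Barycentric refinement. -/
noncomputable def eta {V : Type*} [Fintype V] (G : SimpleGraph V) : ℤ :=
  ∑ x ∈ verts G, curv G x

/-- For every `d ≥ 0` and every `d`-variety `G`, `η(G) = 0` if and only if `χ(S(x)) = 0` for all
vertices `x` of `G_1`. Moreover this happens whenever `d` is even, and for odd `d` exactly when `G`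
has no edges. -/
theorem result {V : Type*} [Fintype V] [DecidableEq V] (G : SimpleGraph V) (d : ℕ)
    (hG : IsVariety G (d + 1) Finset.univ) :
    (eta G = 0 ↔ ∀ x, curv G x = 0) ∧ (Even d → ∀ x, curv G x = 0) ∧
      (Odd d → (eta G = 0 ↔ ∀ x y, ¬ G.Adj x y)) := by
  classical
  have hv : verts G = Finset.univ := by
    ext x
    simp [verts]
  have hc : ∀ x, curv G x = chi (bary G) (usph (bary G) Finset.univ x) := fun x => by
    rw [curv, hv]
  have he : Even d → ∀ x, curv G x = 0 := fun hd x => by
    rw [hc]
    convert curv_even G hd hG x
  have h0 : eta G = ∑ σ : Simplex G, chi (bary G) (usph (bary G) Finset.univ σ) := by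
    rw [eta, hv]
    exact Finset.sum_congr rfl fun x _ => hc x
  have ho : Odd d → (eta G = 0 ↔ ∀ x y, ¬ G.Adj x y) := fun hd => by
    have h1 : eta G = 4 * (((Finset.univ : Finset (Simplex G)).filter
        (fun σ => Even σ.1.card)).card : ℤ) := by
      rw [h0]
      convert eta_odd G hd hG
    rw [h1]
    constructor
    · intro h x y hxy
      have hcl : G.IsClique (({x, y} : Finset V) : Set V) := by
        rw [Finset.coe_insert, Finset.coe_singleton, SimpleGraph.isClique_pair]
        exact fun _ => hxy
      have hmem : (⟨{x, y}, ⟨x, by simp⟩, hcl⟩ : Simplex G) ∈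
          (Finset.univ : Finset (Simplex G)).filter (fun σ => Even σ.1.card) := by
        rw [Finset.mem_filter]
        refine ⟨Finset.mem_univ _, ?_⟩
        simp only
        rw [Finset.card_pair hxy.ne]
        decide
      have hpos := Finset.card_pos.2 ⟨_, hmem⟩
      omega
    · intro h
      have : (Finset.univ : Finset (Simplex G)).filter (fun σ => Even σ.1.card) = ∅ := by
        rw [Finset.filter_eq_empty_iff]
        intro σ _ hev
        have h1 := Finset.card_pos.2 σ.2.1
        have h2 : 1 < σ.1.card := by
          rcases hev with ⟨t, ht⟩
          omega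
        obtain ⟨x, hx, y, hy, hxy⟩ := Finset.one_lt_card.1 h2
        exact h x y (σ.2.2 (by exact_mod_cast hx) (by exact_mod_cast hy) hxy)
      rw [this]
      simp
  refine ⟨⟨fun h => ?_, fun h => ?_⟩, he, ho⟩
  · rcases Nat.even_or_odd d with hd | hd
    · exact he hd
    · intro x
      have hno := (ho hd).1 h
      rw [hc, chi_eq]
      have : usph (bary G) Finset.univ x = ∅ := by
        ext y
        rw [mem_usph]
        simp only [Finset.mem_univ, true_and, Finset.notMem_empty, iff_false]
        have hcard : ∀ z : Simplex G, z.1.card = 1 := by
          intro z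
          have h1 := Finset.card_pos.2 z.2.1
          by_contra hne
          obtain ⟨a, ha, b, hb, hab⟩ := Finset.one_lt_card.1 (show 1 < z.1.card by omega)
          exact hno a b (z.2.2 (by exact_mod_cast ha) (by exact_mod_cast hb) hab)
        rintro (h | h)
        · have := Finset.card_lt_card h
          rw [hcard, hcard] at this
          omega
        · have := Finset.card_lt_card h
          rw [hcard, hcard] at this
          omega
      rw [this, ee_empty, sub_self]
  · rw [eta]
    exact Finset.sum_eq_zero fun x _ => h x

end Pool.Agent.Results.MP_dbf4ef_co.EtaZero
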